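import Mathlib
import Pool.Agent.H56.BhProof

namespace Pool.Agent.Results.MP_1b3ee4_nt.Counter

open Pool.Agent.H56.Bh

lemma hP : ∀ x ∈ ({2, 3, 5, 7, 11, 13, 17, 19, 23, 29, 37, 41, 43, 47, 53, 59, 67, 73, 79, 83, 97, 103, 107, 109, 113, 149, 151, 173, 317} : Finset ℤ), x ∈ primes := by
  intro x hx
  rw [primes_iff]
  simp only [Finset.mem_insert, Finset.mem_singleton] at hx
  rcases hx with rfl | rfl | rfl | rfl | rfl | rfl | rfl | rfl | rfl | rfl | rfl | rfl | rfl | rfl | rfl | rfl | rfl | rfl | rfl | rfl | rfl | rfl | rfl | rfl | rfl | rfl | rfl | rfl | rfl <;> norm_num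

lemma hT : ∀ x ∈ ({5, 7, 11, 13, 17, 19, 23, 41, 43, 47, 101, 103, 107, 109, 113, 191, 193, 197, 227, 229, 233, 311, 313, 317, 347, 349, 353, 461, 463, 467} : Finset ℤ), x ∈ triplets := by
  intro x hx
  simp only [triplets, Set.mem_ofPred_eq, primes_iff]
  simp only [Finset.mem_insert, Finset.mem_singleton] at hx
  rcases hx with rfl | rfl | rfl | rfl | rfl | rfl | rfl | rfl | rfl | rfl | rfl | rfl | rfl | rfl | rfl | rfl | rfl | rfl | rfl | rfl | rfl | rfl | rfl | rfl | rfl | rfl | rfl | rfl | rfl | rfl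
  · exact ⟨5, by norm_num⟩
  · exact ⟨5, by norm_num⟩
  · exact ⟨5, by norm_num⟩
  · exact ⟨11, by norm_num⟩
  · exact ⟨11, by norm_num⟩
  · exact ⟨17, by norm_num⟩
  · exact ⟨17, by norm_num⟩
  · exact ⟨41, by norm_num⟩
  · exact ⟨41, by norm_num⟩
  · exact ⟨41, by norm_num⟩
  · exact ⟨101, by norm_num⟩
  · exact ⟨101, by norm_num⟩
  · exact ⟨101, by norm_num⟩
  · exact ⟨107, by norm_num⟩
  · exact ⟨107, by norm_num⟩
  · exact ⟨191, by norm_num⟩
  · exact ⟨191, by norm_num⟩
  · exact ⟨191, by norm_num⟩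
  · exact ⟨227, by norm_num⟩
  · exact ⟨227, by norm_num⟩
  · exact ⟨227, by norm_num⟩
  · exact ⟨311, by norm_num⟩
  · exact ⟨311, by norm_num⟩
  · exact ⟨311, by norm_num⟩
  · exact ⟨347, by norm_num⟩
  · exact ⟨347, by norm_num⟩
  · exact ⟨347, by norm_num⟩
  · exact ⟨461, by norm_num⟩
  · exact ⟨461, by norm_num⟩
  · exact ⟨461, by norm_num⟩

theorem result :
    ∃ n : ℕ, 1 ≤ n ∧ (∃ F, IsFactorial triplets n F) ∧ (∃ G, IsFactorial primes n G) ∧
      ∀ F G : ℕ, IsFactorial triplets n F → IsFactorial primes n G →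
        F ≠ (if Even n then Nat.factorial 3 * w 2 n * w 3 n else 2) * G := by
  refine ⟨28, by norm_num, exists_factorial _ hT (by decide), exists_factorial _ hP (by decide), ?_⟩
  intro F G hF hG h
  have h1 : 29 ∣ F := dvd_of_not_mem (p := 29) (by norm_num)
    (by rintro x ⟨p, h1, h2, h3, rfl | rfl | rfl⟩ <;> assumption) (by
    rintro ⟨p, h1, h2, h3, h4 | h4 | h4⟩
    · obtain rfl : p = 29 := by omega
      rw [primes_iff] at h3; norm_num at h3
    · obtain rfl : p = 27 := by omega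
      rw [primes_iff] at h1; norm_num at h1
    · obtain rfl : p = 23 := by omega
      rw [primes_iff] at h2; norm_num at h2) hF
  have h2 : ¬ 29 ∣ G := not_dvd_of_many (p := 29) (by norm_num) _ hP (by decide) hG
  rw [h, if_pos (by decide), w, w, Nat.Prime.dvd_mul (by norm_num),
    Nat.Prime.dvd_mul (by norm_num), Nat.Prime.dvd_mul (by norm_num)] at h1
  rcases h1 with ((h1 | h1) | h1) | h1
  · revert h1; decide
  · have := Nat.Prime.dvd_of_dvd_pow (by norm_num) h1
    omega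
  · have := Nat.Prime.dvd_of_dvd_pow (by norm_num) h1
    omega
  · exact h2 h1

end Pool.Agent.Results.MP_1b3ee4_nt.Counter
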